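import Pool.Agent.E8helper58.CM.Base
import Pool.Agent.E8helper58.FV.Defect

/-!
# The reduction to homology spheres in which each edge is contained in an induced 4-cycle
-/

set_option autoImplicit false
set_option linter.unusedSectionVars false

namespace Pool.Agent.E8helper58.CM

open Pool.Agent.W907.SG Pool.Agent.W907.SM Pool.Agent.TH652.Above Pool.Agent.E8helper58.FV
open Pool.Agent.TH652.Dual (triv Sph)
open Pool.Agent.R781.VS (con NoSq Q_split lv_del Q_restrict)
open Pool.Agent.R703.CW (hsph_link card_le_of_hsph)

/-- the hypothesis: the vanishing in the first degree above the middle for the irreducible spheres of odd rank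
between `r` and `M` -/
def Irr (r M : ℕ) : Prop := ∀ (n : ℕ) (V : Type) [Fintype V] [LinearOrder V] (G : SimpleGraph V), HSph n G → Odd n →
  r ≤ n → n ≤ M → Irred n G → L2Van G ((n + 1) / 2)

theorem q_main (hA : S_CONA) (hB : S_CONB) {M : ℕ} (hI : Irr 3 M) : ∀ (n : ℕ), n ≤ M → ∀ (N : ℕ) (V : Type)
    [Fintype V] [LinearOrder V] (G : SimpleGraph V), Fintype.card V = N → HSph n G → Q n G := by
  classical
  intro n
  induction n using Nat.strong_induction_on with
  | _ n ihn =>
  intro hnM N
  induction N using Nat.strong_induction_on with
  | _ N ihN =>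
  intro V _ _ G hN hS
  -- the links
  have hlk : ∀ S : Finset V, G.IsClique (S : Set V) → S.Nonempty → Q (n - S.card) (G.induce (lk G S)) := by
    intro S hc hne
    have h1 := hsph_link hS S hc
    have h2 := card_le_of_hsph hS S hc
    have h3 := Finset.card_pos.2 hne
    exact ihn (n - S.card) (by omega) (by omega) _ _ _ rfl h1
  have hv : ∀ v : V, Q (n - 1) (G.induce (G.neighborSet v)) := by
    intro v
    have h1 := hlk {v} (by simp) (Finset.singleton_nonempty v)
    have e : lk G {v} = G.neighborSet v := by
      ext x
      simp [lk, SimpleGraph.adj_comm]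
    rw [e, Finset.card_singleton] at h1
    exact h1
  have hv' : ∀ v : V, Q n (G.induce (G.neighborSet v)) := fun v => Q_mono (by omega) (hv v)
  have huniv : R G n Set.univ → Q n G := fun h =>
    ⟨inferInstance, fun A i hi => h A (Set.subset_univ _) i hi⟩
  have hsz := size (n := n) hS n ∅ (by simp) (by simp)
  rw [ncard_lk_empty] at hsz
  rcases Nat.even_or_odd' n with ⟨m, hm | hm⟩
  · rcases Nat.eq_zero_or_pos m with h0 | h0
    · -- rank zero
      subst h0
      have hemp : IsEmpty V := by
        refine ⟨fun v => ?_⟩
        have h2 := card_le_of_hsph hS {v} (by simp)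
        rw [Finset.card_singleton] at h2
        omega
      refine huniv ?_
      have e : (Set.univ : Set V) = ∅ := Set.univ_eq_empty_iff.2 hemp
      rw [e]
      exact R_empty
    · obtain ⟨m', rfl⟩ : ∃ m', m = m' + 1 := ⟨m - 1, by omega⟩
      have e : n = 2 * m' + 2 := by omega
      subst e
      refine Q_loc (m := m') G ∅ ?_ fun v _ => hv v
      intro T _ hT
      have h1 : T = ∅ := by
        rw [← Finset.coe_eq_empty]
        exact Set.subset_empty_iff.1 hT
      rw [h1]
      simp
  · rcases Nat.eq_zero_or_pos m with h0 | h0
    · -- rank one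
      subst h0
      have hne : Nonempty V := Fintype.card_pos_iff.1 (by omega)
      obtain ⟨v⟩ := hne
      have hvl : ∀ x : V, x ∈ lk G ∅ := fun x => by simp [lk]
      obtain ⟨u, -, huv, hn⟩ := no_cone (n := n) hS (S := ∅) (by simp) (hvl v)
      refine huniv ?_
      have h1 : R G n (insert v (insert u ∅)) :=
        R_susp huv.symm hn (fun a ha => absurd ha (Set.notMem_empty a))
          (fun a ha => absurd ha (Set.notMem_empty a)) R_empty
      refine R_mono ?_ h1
      intro x hx
      by_contra hno
      exact no_three (n := n) hS (S := ∅) (by simp) (by simp; omega) (hvl v) (hvl u) (hvl x) huv.symm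
        (fun e => hno (Or.inl e.symm)) (fun e => hno (Or.inr (Or.inl e.symm)))
    · obtain ⟨k, rfl⟩ : ∃ k, m = k + 1 := ⟨m - 1, by omega⟩
      have e : n = (2 * k + 1) + 2 := by omega
      by_cases hj : IsJoin G
      · -- joins
        obtain ⟨A, B, hA', hB', hAB, hfull⟩ := hj
        refine huniv ?_
        obtain ⟨TA, hTAc, hTAs, hTAm⟩ := max_clique (G := G) A
        obtain ⟨TB, hTBc, hTBs, hTBm⟩ := max_clique (G := G) B
        have hneT : ∀ (X : Set V) (T : Finset V), X.Nonempty → (∀ x ∈ X, ∃ t ∈ T, ¬ G.Adj x t) → T.Nonempty := by
          rintro X T ⟨x, hx⟩ hT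
          obtain ⟨t, ht, -⟩ := hT x hx
          exact ⟨t, ht⟩
        obtain ⟨h1, h2, h3, h4, h5, h6, h7⟩ := join_rank (n := n) hS (S := ∅) (by simp)
          (by rw [hAB, lk_empty]) hfull hTAc hTAs hTAm hTBc hTBs hTBm
        rw [Finset.empty_union] at h1 h2
        rw [Finset.card_empty] at h7
        have hRA := hlk TB hTBc (hneT B TB hB' hTBm)
        have hRB := hlk TA hTAc (hneT A TA hA' hTAm)
        rw [h1] at hRA
        rw [h2] at hRB
        have h8 := R_join hfull (R_of_Q hRA) (R_of_Q hRB)
        rw [hAB] at h8
        have e2 : n - TB.card + (n - TA.card) = n := by omega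
        rw [e2] at h8
        exact h8
      · by_cases hred : ∃ s t : V, G.Adj s t ∧ NoSq G s t
        · -- contraction
          obtain ⟨s, t, hst, hsq⟩ := hred
          have h1 := hsph_con hA hB hS hst hsq
          have hcard : Fintype.card ↥({t}ᶜ : Set V) < N := by
            rw [← hN]
            have h2 : Fintype.card ↥({t}ᶜ : Set V) = Fintype.card V - 1 := by
              rw [Fintype.card_compl_set]
              simp
            have h3 : 0 < Fintype.card V := Fintype.card_pos_iff.2 ⟨t⟩
            omega
          have h2 := ihN _ hcard _ _ rfl h1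
          have h3 := hlk {s, t} (by
            rw [Finset.coe_insert, Finset.coe_singleton]
            exact (SimpleGraph.isClique_pair).2 fun _ => hst) ⟨s, by simp⟩
          have e3 : lk G {s, t} = G.neighborSet s ∩ G.neighborSet t := by
            ext x
            simp [lk, SimpleGraph.adj_comm]
          rw [e3, Finset.card_pair hst.ne] at h3
          rw [e] at h2 hv' h3 ⊢
          exact Q_split G s t hst hsq h2 h3 (hv' s) (hv' t)
        · push Not at hred
          by_cases hc1 : Fintype.card V ≤ n + 3 * (n / 2) + 2
          · exact ⟨inferInstance, fun A i hi => few_full hS (few_of_card (Or.inl hc1)) A i (by omega)⟩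
          by_cases hc2 : Fintype.card V + 1 ≤ 3 * n
          · have hprm : Pool.Agent.W497.FS.Prm G Finset.univ := by
              refine ⟨Finset.card_pos.1 (by rw [Finset.card_univ]; omega), fun X _ hX hX' => ?_⟩
              by_contra hno
              push Not at hno
              refine hj ⟨X, {x | x ∉ X}, hX, ?_, ?_, fun x hx y hy => hno x hx y (Finset.mem_univ _) hy⟩
              · by_contra hemp
                rw [Set.not_nonempty_iff_eq_empty] at hemp
                refine hX' (Finset.eq_univ_iff_forall.2 fun x => ?_)
                by_contra hx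
                have h1 : x ∈ {x | x ∉ X} := hx
                rw [hemp] at h1
                exact h1
              · ext x
                simp only [Set.mem_union, Finset.mem_coe, Set.mem_ofPred_eq, Set.mem_univ, iff_true]
                exact em _
            have h1 := rule_main (n := n) hS (rule_of_forest (n := n) hS (forest_of_card (n := n) hS (by
              rw [Pool.Agent.W497.FS.comps_prm hprm, Finset.card_singleton]
              exact hc2)) n ∅ (by simp) (by simp)) (by simp)
            rw [lk_empty, Finset.card_empty, Nat.sub_zero] at h1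
            exact huniv h1
          by_cases hc3 : BadClique ((n + 1) / 2) G
          · refine Q_of_links (fun i hi => ?_) hv'
            by_cases h1 : i = (n + 1) / 2
            · rw [h1]
              exact lv_of (hI n V G hS ⟨k + 1, by omega⟩ (by omega) hnM ⟨hj, fun s t hst => hred s t hst, hc3,
                by omega, by omega⟩)
            · exact high_of_links hv i (by omega)
          · -- few vertices with nonzero Euler characteristic of the link
            refine huniv (R_out (m := k + 1) (j := 2 * k + 1) (by intro i hi; omega)
              (B := {v | ∀ [Fintype ↥(G.neighborSet v)], chiW (G.induce (G.neighborSet v)) ≠ 0}) ?_ ?_)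
            · intro T hT _ hTB
              by_contra hlt
              push Not at hlt
              obtain ⟨T', hT', hc'⟩ := Finset.exists_subset_card_eq (n := k + 2) (by omega : k + 2 ≤ T.card)
              refine hc3 ⟨T', hT.subset (Finset.coe_subset.2 hT'), by omega, fun v hv => hTB (hT' hv)⟩
            · intro v _ hvB
              rw [Set.univ_inter]
              have hχ : ∃ _ : Fintype ↥(G.neighborSet v), chiW (G.induce (G.neighborSet v)) = 0 := by
                by_contra hno
                push Not at hno
                exact hvB (hno _)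
              obtain ⟨inst, hχ⟩ := hχ
              have h1 : SphA (2 * k + 2) G (G.neighborSet v) := by
                have h2 := sphA_v (m := 2 * k + 2) (G := G) (W := Set.univ)
                  (sphA_univ (by rw [show 2 * k + 2 + 1 = n by omega]; exact hS)) (Set.mem_univ v)
                rwa [Set.univ_inter] at h2
              refine R_chi_zero (k := k) (W := G.neighborSet v) (hsph_of_sphA h1) hχ ?_
              intro u hu
              have h3 := hlk {v, u} (by
                rw [Finset.coe_insert, Finset.coe_singleton]
                exact (SimpleGraph.isClique_pair).2 fun _ => hu) ⟨v, by simp⟩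
              have e3 : lk G {v, u} = G.neighborSet v ∩ G.neighborSet u := by
                ext x
                simp [lk, SimpleGraph.adj_comm]
              rw [e3, Finset.card_pair (SimpleGraph.Adj.ne hu)] at h3
              have e4 : n - 2 = 2 * k + 1 := by omega
              rw [e4] at h3
              exact R_of_Q h3

/-- in rank three there are no irreducible homology spheres -/
theorem irr_three (hR : S_IRR) {M : ℕ} (h : Irr 5 M) : Irr 3 M := by
  intro n V _ _ G hS hodd hn hM hirr
  obtain ⟨hj, hsq, -⟩ := id hirr
  by_cases h5 : 5 ≤ n
  · exact h n V G hS hodd h5 hM hirr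
  · have e : n = 3 := by
      obtain ⟨k, hk⟩ := hodd
      omega
    subst e
    exfalso
    rcases hR V G Set.univ (sphA_univ hS) with ⟨s, -, t, -, hst, h1⟩ | h1
    · exact hsq s t hst fun x y => h1 x (Set.mem_univ _) y (Set.mem_univ _)
    · exact hj h1

theorem irr_small : Irr 5 4 := fun n V _ _ G _ _ h1 h2 => absurd h1 (by omega)

/-- the Euler characteristic of an odd-dimensional Davis manifold -/
theorem chi_odd {V : Type} [Fintype V] [LinearOrder V] {G : SimpleGraph V} {n : ℕ} (hS : HSph n G) (hn : Odd n) :
    chiW G = 0 := by
  classical
  have h1 := (Pool.Agent.R703.CW.flagEul_of_hsph hS).eul.ds (R := ℚ) (-1 / 2)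
  rw [hn.neg_one_pow] at h1
  have e : (-1 - -1 / 2 : ℚ) = -1 / 2 := by norm_num
  rw [e] at h1
  have h2 : Pool.Agent.W497.FS.fe G Finset.univ (-1 / 2 : ℚ) = 0 := by linarith
  rw [← h2, Pool.Agent.R703.CW.chi_filter, Pool.Agent.W497.FS.fe]
  refine Finset.sum_congr ?_ fun _ _ => rfl
  ext T
  rw [Finset.mem_filter, Pool.Agent.W497.FS.mem_cl]
  constructor
  · rintro ⟨-, h⟩
    exact ⟨Finset.subset_univ T, fun x hx y hy hxy => h hx hy hxy⟩
  · rintro ⟨-, h⟩
    exact ⟨Finset.mem_univ T, fun x hx y hy hxy => h x hx y hy hxy⟩

/-- vanishing above the middle for all full subcomplexes -/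
theorem above_all (hA : S_CONA) (hB : S_CONB) {M : ℕ} (hI : Irr 3 M) {n : ℕ} (hn : n ≤ M) {V : Type} [Fintype V]
    [LinearOrder V] {G : SimpleGraph V} (hS : HSph n G) : R G n Set.univ :=
  fun A _ i hi => (q_main hA hB hI n hn _ V G rfl hS).2 A i hi

end Pool.Agent.E8helper58.CM
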