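import Pool.Agent.E8helper12.CM.DEL
import Pool.Agent.E8helper38.CM.MERGE
import Pool.Agent.E8helper50.CM.IRR
import Pool.Agent.E8helper63.CM.ConA
import Pool.Agent.E8helper63.CM.Cone0
import Pool.Agent.E8helper73.CM.CONEQ
import Pool.Agent.E8helper67.CM.Punct
import Pool.Agent.E8helper25.CM.ConB
import Pool.Agent.E8helper47.CM.Jordan
import Pool.Agent.E8helper58.CM.Red

/-!
# Assembly
-/

set_option autoImplicit false

namespace Pool.Agent.E8helper58.CM

theorem conA : S_CONA := Pool.Agent.E8helper63.CM.t_CONA Pool.Agent.E8helper73.CM.t_CONEQ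
  Pool.Agent.E8helper12.CM.t_DEL Pool.Agent.E8helper63.CM.t_CONE0

theorem conB : S_CONB := Pool.Agent.E8helper25.CM.t_CONB (Pool.Agent.E8helper38.CM.t_MERGE
  Pool.Agent.E8helper73.CM.t_CONEQ Pool.Agent.E8helper12.CM.t_DEL Pool.Agent.E8helper12.CM.t_UP
  Pool.Agent.E8helper67.CM.t_PUNCT)

theorem irr : S_IRR := Pool.Agent.E8helper50.CM.t_IRR Pool.Agent.E8helper47.CM.t_JORDAN

end Pool.Agent.E8helper58.CM
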