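import Pool.Agent.W907.SM.Defs
import Pool.Agent.R781.VS.Contr

/-!
# Irreducible flag complexes
-/

set_option autoImplicit false

namespace Pool.Agent.E8helper58.CM

open Pool.Agent.W907.SG
open Pool.Agent.R781.VS (NoSq)

/-- the flag complex of `G` is a join of two nonempty full subcomplexes -/
def IsJoin {V : Type} (G : SimpleGraph V) : Prop :=
  ∃ X Y : Set V, X.Nonempty ∧ Y.Nonempty ∧ X ∪ Y = Set.univ ∧ ∀ x ∈ X, ∀ y ∈ Y, G.Adj x y

/-- there is a simplex with `m` vertices all of whose vertices have links with `chiW ≠ 0`, where `chiW` is the sum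
`∑_T (-1/2)^|T|` over all simplices `T` of the link, the empty one included (the Euler characteristic of the Coxeter
group of the link, not the topological Euler characteristic of the link) -/
def BadClique {V : Type} [Fintype V] (m : ℕ) (G : SimpleGraph V) : Prop :=
  ∃ T : Finset V, G.IsClique (T : Set V) ∧ T.card = m ∧
    ∀ v ∈ T, ∀ [Fintype ↥(G.neighborSet v)], chiW (G.induce (G.neighborSet v)) ≠ 0

/-- The graph `G` on the vertex set of a flag complex of rank `n` (dimension `n - 1`) is irreducible: the complex is
not a join, every edge is contained in an induced 4-cycle, there is a simplex with `(n + 1) / 2` vertices whose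
vertices all have links with `chiW ≠ 0` (see `BadClique`), and there are more than `n + 3 ⌊n / 2⌋ + 2` and at least
`3 n` vertices. -/
def Irred {V : Type} [Fintype V] (n : ℕ) (G : SimpleGraph V) : Prop :=
  ¬ IsJoin G ∧ (∀ s t : V, G.Adj s t → ¬ NoSq G s t) ∧ BadClique ((n + 1) / 2) G ∧
    n + 3 * (n / 2) + 2 < Fintype.card V ∧ 3 * n ≤ Fintype.card V

end Pool.Agent.E8helper58.CM
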