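import Pool.Agent.E8helper58.CM.Ind
import Pool.Agent.E8helper58.CM.DefRed
import Pool.Agent.E8helper58.FV.Good
import Pool.Agent.E8helper58.FV.Cor
import Pool.Agent.R703.CW.Eul
import Pool.Agent.R781.VS.Growth

/-!
# Vanishing criteria
-/

set_option autoImplicit false
set_option linter.unusedSectionVars false

namespace Pool.Agent.E8helper58.CM

open Pool.Agent.W907.SG Pool.Agent.W907.SM Pool.Agent.TH652.Above Pool.Agent.E8helper58.FV
open Pool.Agent.TH652.Dual (triv Sph lk_iff)
open Pool.Agent.R781.VS (con NoSq Q_split lv_del Q_restrict)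
open Pool.Agent.R703.CW (hsph_link card_le_of_hsph)

/-- vanishing above the middle for a complex from the vanishing for the links of its vertices -/
theorem Q_of_links {V : Type} [Finite V] {G : SimpleGraph V} {n : ℕ} (h : ∀ i, n < 2 * i → LV G i)
    (hl : ∀ v, Q n (G.induce (G.neighborSet v))) : Q n G := by
  classical
  refine ⟨inferInstance, fun A i hi => ?_⟩
  have key : ∀ k : ℕ, ∀ A : Set V, Aᶜ.ncard = k → LV (G.induce A) i := by
    intro k
    induction k with
    | zero =>
      intro A hA
      rw [Set.ncard_eq_zero (Set.toFinite _), Set.compl_empty_iff] at hA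
      rw [hA]
      exact (lv_univ G i).2 (h i hi)
    | succ k ih =>
      intro A hA
      obtain ⟨v, hv⟩ : Aᶜ.Nonempty := by
        rw [← Set.ncard_pos (Set.toFinite _)]
        omega
      refine lv_del G A v hv i (ih (insert v A) ?_) (Q_restrict (hl v) _ (fun x hx => hx.2) i hi)
      have e : (insert v A)ᶜ = Aᶜ \ {v} := by
        ext x
        simp only [Set.mem_compl_iff, Set.mem_insert_iff, not_or, Set.mem_sdiff, Set.mem_singleton_iff]
        tauto
      rw [e]
      have h3 := Set.ncard_sdiff_singleton_add_one hv (Set.toFinite _)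
      omega
  exact key _ A rfl

/-- vanishing in the high degrees for a complex from the vanishing for the links of its vertices -/
theorem high_of_links {V : Type} [Finite V] {G : SimpleGraph V} {n : ℕ}
    (hl : ∀ v, Q n (G.induce (G.neighborSet v))) (i : ℕ) (hi : n + 2 < 2 * i) : LV G i := by
  classical
  have key : ∀ k : ℕ, ∀ A : Set V, A.ncard = k → LV (G.induce A) i := by
    intro k
    induction k with
    | zero =>
      intro A hA
      rw [Set.ncard_eq_zero (Set.toFinite _)] at hA
      rw [hA]
      exact lempty _ _ i (by omega)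
    | succ k ih =>
      intro A hA
      obtain ⟨v, hv⟩ : A.Nonempty := by
        rw [← Set.ncard_pos (Set.toFinite _)]
        omega
      refine lv_add G A v hv i (ih (A \ {v}) ?_) fun j hj => Q_restrict (hl v) _ (fun x hx => hx.2) j (by omega)
      have h3 := Set.ncard_sdiff_singleton_add_one hv (Set.toFinite _)
      omega
  exact (lv_univ G i).1 (key _ Set.univ rfl)

/-- vanishing for a complex if the vertices outside `B` have good links and `B` has small dimension -/
theorem R_out {V : Type} [Finite V] {G : SimpleGraph V} {n m j : ℕ} (hn : ∀ i, n < 2 * i → m < i ∧ j + 2 < 2 * i)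
    {A B : Set V} (hB : ∀ T : Finset V, G.IsClique (T : Set V) → (T : Set V) ⊆ A → (T : Set V) ⊆ B → T.card ≤ m)
    (h : ∀ v ∈ A, v ∉ B → R G j (A ∩ G.neighborSet v)) : R G n A := by
  classical
  intro D hDA i hi
  obtain ⟨hi1, hi2⟩ := hn i hi
  have key : ∀ k : ℕ, ∀ D : Set V, D ⊆ A → (D \ B).ncard = k → LV (G.induce D) i := by
    intro k
    induction k with
    | zero =>
      intro D hDA hD
      rw [Set.ncard_eq_zero, Set.sdiff_eq_empty] at hD
      intro _ _ c hc
      funext w T
      refine hc.supp w T ?_
      rintro ⟨h1, h2⟩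
      have h3 := hB (T.map ⟨Subtype.val, Subtype.val_injective⟩) (by
        intro a ha b hb hab
        rw [Finset.mem_coe, Finset.mem_map] at ha hb
        obtain ⟨x, hx, rfl⟩ := ha
        obtain ⟨y, hy, rfl⟩ := hb
        exact h1 hx hy fun e => hab (by rw [e])) (by
        intro a ha
        rw [Finset.mem_coe, Finset.mem_map] at ha
        obtain ⟨x, _, rfl⟩ := ha
        exact hDA x.2) (by
        intro a ha
        rw [Finset.mem_coe, Finset.mem_map] at ha
        obtain ⟨x, _, rfl⟩ := ha
        exact hD x.2)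
      rw [Finset.card_map] at h3
      omega
    | succ k ih =>
      intro D hDA hD
      obtain ⟨v, hv⟩ : (D \ B).Nonempty := by
        rw [← Set.ncard_pos]; omega
      refine lv_add G D v hv.1 i (ih _ (Set.sdiff_subset.trans hDA) ?_) (fun p hp => ?_)
      · have h1 : (D \ {v}) \ B = (D \ B) \ {v} := by
          ext x
          simp only [Set.mem_sdiff, Set.mem_singleton_iff]
          tauto
        have h2 := Set.ncard_sdiff_singleton_add_one hv (Set.toFinite _)
        rw [h1]
        omega
      · exact h v (hDA hv.1) hv.2 _ (Set.inter_subset_inter_left _ hDA) p (by omega)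
  exact key _ D hDA rfl

/-- vanishing for all full subcomplexes from the vanishing for the complex and the links of its vertices -/
theorem R_of_links {V : Type} [Finite V] {G : SimpleGraph V} {n : ℕ} {W : Set V}
    (h : ∀ i, n < 2 * i → LV (G.induce W) i) (hl : ∀ v ∈ W, R G n (W ∩ G.neighborSet v)) : R G n W := by
  classical
  refine R_of_Q (Q_of_links h fun v => Q_of_R (R_ind (R_mono ?_ (hl v.1 v.2))))
  rintro _ ⟨x, hx, rfl⟩
  exact ⟨x.2, hx⟩

theorem lk_single {V : Type} [DecidableEq V] (G : SimpleGraph V) (v : V) : lk G {v} = G.neighborSet v := by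
  ext x
  simp [lk, SimpleGraph.adj_comm]

theorem lk_pair {V : Type} [DecidableEq V] (G : SimpleGraph V) (s t : V) :
    lk G {s, t} = G.neighborSet s ∩ G.neighborSet t := by
  ext x
  simp [lk, SimpleGraph.adj_comm]

variable {V : Type} [Fintype V] [LinearOrder V] {G : SimpleGraph V}

/-- links in homology spheres on subsets -/
theorem sphA_link {m k : ℕ} {W : Set V} (h : SphA (m + k) G W) {T : Finset V} (hT : G.IsClique (T : Set V))
    (hTW : (T : Set V) ⊆ W) (hk : T.card = k) : SphA m G (W ∩ lk G T) := by
  classical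
  intro S hS hSW i
  have h1 := (lk_iff hT S).1 ⟨hS, fun x hx => (hSW hx).2⟩
  have h2 := h (T ∪ S) h1.2 (by
    rw [Finset.coe_union]
    exact Set.union_subset hTW fun x hx => (hSW hx).1) i
  have e : W ∩ lk G (T ∪ S) = W ∩ lk G T ∩ lk G S := by
    ext x
    constructor
    · rintro ⟨h3, h4⟩
      exact ⟨⟨h3, fun u hu => h4 u (Finset.mem_union_left _ hu)⟩, fun u hu => h4 u (Finset.mem_union_right _ hu)⟩
    · rintro ⟨⟨h3, h4⟩, h5⟩
      refine ⟨h3, fun u hu => ?_⟩
      rcases Finset.mem_union.1 hu with h | h
      · exact h4 u h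
      · exact h5 u h
  rw [e, Finset.card_union_of_disjoint h1.1, hk] at h2
  rw [h2]
  by_cases h3 : i + S.card = m
  · rw [if_pos h3, if_pos (by omega)]
  · rw [if_neg h3, if_neg (by omega)]

theorem sphA_v {m : ℕ} {W : Set V} (h : SphA (m + 1) G W) {v : V} (hv : v ∈ W) :
    SphA m G (W ∩ G.neighborSet v) := by
  rw [← lk_single]
  refine sphA_link h (by simp) ?_ (Finset.card_singleton v)
  rw [Finset.coe_singleton]
  exact Set.singleton_subset_iff.2 hv

theorem sphA_e {m : ℕ} {W : Set V} (h : SphA (m + 2) G W) {s t : V} (hs : s ∈ W) (ht : t ∈ W) (hst : G.Adj s t) :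
    SphA m G (W ∩ (G.neighborSet s ∩ G.neighborSet t)) := by
  rw [← lk_pair]
  refine sphA_link h ?_ ?_ (Finset.card_pair hst.ne)
  · rw [Finset.coe_insert, Finset.coe_singleton]
    exact (SimpleGraph.isClique_pair).2 fun _ => hst
  · rw [Finset.coe_insert, Finset.coe_singleton]
    exact Set.insert_subset hs (Set.singleton_subset_iff.2 ht)

/-- a homology sphere of even rank with Euler characteristic zero, whose vertex links satisfy the Singer conjecture,
has no `ℓ²`-homology -/
theorem R_chi_zero {k : ℕ} {W : Set V} [Fintype ↥W] (hS : HSph (2 * k + 2) (G.induce W)) (hχ : chiW (G.induce W) = 0)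
    (hl : ∀ v ∈ W, R G (2 * k + 1) (W ∩ G.neighborSet v)) : R G (2 * k + 1) W := by
  classical
  have h1 : R G (2 * k + 2) W := R_loc hl
  have hs : ∀ i : ℕ, 2 * i ≠ 2 * k + 2 → L2Van (G.induce W) i := fun i hi =>
    singer_of_above hS (fun i hi => h1 W (Set.Subset.refl _) i hi _ _) i hi
  have h2 := (l2eul ↥W (G.induce W) (k + 1) fun i hi => hs i (by omega)).2 hχ
  exact R_of_links (fun i _ => lv_of (h2 i)) hl

end Pool.Agent.E8helper58.CM
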