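import Pool.Agent.E8helper58.CM.Stm

/-!
# Betti numbers of full subcomplexes
-/

set_option autoImplicit false

namespace Pool.Agent.E8helper58.CM

open Pool.Agent.W907.SG Pool.Agent.W907.SM
open Pool.Agent.TH652.Dual (triv Sph)

/-- Betti numbers only depend on the graph induced on `A` -/
theorem beta_congr {V : Type} [Fintype V] [LinearOrder V] {G H : SimpleGraph V} {A : Set V}
    (h : ∀ x ∈ A, ∀ y ∈ A, (G.Adj x y ↔ H.Adj x y)) (i : ℕ) :
    beta G (triv V) A ∅ i = beta H (triv V) A ∅ i := by
  have hc : ∀ T : Finset V, (T : Set V) ⊆ A → (G.IsClique (T : Set V) ↔ H.IsClique (T : Set V)) := by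
    intro T hT
    constructor
    · intro h1 x hx y hy hxy
      exact (h x (hT hx) y (hT hy)).1 (h1 hx hy hxy)
    · intro h1 x hx y hy hxy
      exact (h x (hT hx) y (hT hy)).2 (h1 hx hy hxy)
  have hK : ∀ i, KK G (triv V) A ∅ i = KK H (triv V) A ∅ i := by
    intro i
    ext c
    rw [mem_KK, mem_KK]
    refine and_congr ?_ Iff.rfl
    refine forall_congr' fun T => ?_
    rw [not_iff_not.2 (and_congr_left fun hT => hc T hT.1)]
  unfold beta ZZ BB
  rw [hK, hK]

end Pool.Agent.E8helper58.CM
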