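import Pool.Agent.E8helper58.CM.Stm
import Pool.Agent.R781.VS.Contr
import Pool.Agent.W907.SM.Defs

/-!
# A class of flag spheres
-/

set_option autoImplicit false

namespace Pool.Agent.E8helper58.CM

open Pool.Agent.W907.SG Pool.Agent.W907.SM
open Pool.Agent.R781.VS (con)

/-- The set `A` has few elements, namely at most `max (n + 3 j + 2) (2 n + j)`, or (if `1 ≤ j`) each simplex with
`j + 1` vertices in the flag complex on `A` has a vertex `v` whose link satisfies the condition for `n - 1` and
`j - 1`. -/
def FewA {V : Type} (G : SimpleGraph V) : ℕ → ℕ → Set V → Prop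
  | n, 0, A => A.ncard ≤ n + 2 ∨ A.ncard ≤ 2 * n
  | n, j + 1, A => A.ncard ≤ n + 3 * (j + 1) + 2 ∨ A.ncard ≤ 2 * n + (j + 1) ∨
      ∀ T : Finset V, G.IsClique (T : Set V) → (T : Set V) ⊆ A → T.card = j + 2 →
        ∃ v ∈ T, FewA G (n - 1) j (A ∩ G.neighborSet v)

/-- `Cls n G A`: the flag complex on `A`, which is meant to be a homology sphere of rank `n` (dimension `n - 1`), is
obtained by the following rules. -/
inductive Cls {V : Type} : ℕ → SimpleGraph V → Set V → Prop
  /-- the rank is at most four -/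
  | small {n : ℕ} (G : SimpleGraph V) (A : Set V) : n ≤ 4 → Cls n G A
  /-- few vertices (or the recursive condition `FewA` for half the rank) -/
  | few {n : ℕ} (G : SimpleGraph V) (A : Set V) : FewA G n (n / 2) A → Cls n G A
  /-- even rank `2 m + 2`: the links of all vertices are in the class, except for the vertices in a set `B` without
  simplices with `m + 2` vertices -/
  | even {m : ℕ} (G : SimpleGraph V) (A B : Set V) :
      (∀ T : Finset V, G.IsClique (T : Set V) → (T : Set V) ⊆ A → (T : Set V) ⊆ B → T.card ≤ m + 1) →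
      (∀ v ∈ A, v ∉ B → Cls (2 * m + 1) G (A ∩ G.neighborSet v)) → Cls (2 * m + 2) G A
  /-- odd rank `2 m + 3`: the links of all vertices have `chiW = 0` (`chiW` is the sum `∑_T (-1/2)^|T|` over the
  simplices `T`, the Euler characteristic of the Coxeter group, not the topological one) and the links of all edges
  are in the class, except for the vertices in a set `B` without simplices with `m + 2` vertices and the edges
  within `B` -/
  | chi {m : ℕ} (G : SimpleGraph V) (A B : Set V) :
      (∀ T : Finset V, G.IsClique (T : Set V) → (T : Set V) ⊆ A → (T : Set V) ⊆ B → T.card ≤ m + 1) →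
      (∀ v ∈ A, v ∉ B → ∀ [Fintype ↥(A ∩ G.neighborSet v)], chiW (G.induce (A ∩ G.neighborSet v)) = 0) →
      (∀ v ∈ A, v ∉ B → ∀ u ∈ A, G.Adj v u → Cls (2 * m + 1) G (A ∩ (G.neighborSet v ∩ G.neighborSet u))) →
      Cls (2 * m + 3) G A
  /-- joins of members of the class of the ranks `m` and `n` (the number of vertices of the maximal simplices `S` and
  `T`) -/
  | join {m n : ℕ} (G : SimpleGraph V) (A B : Set V) (S T : Finset V) : (∀ a ∈ A, ∀ b ∈ B, G.Adj a b) →
      G.IsClique (S : Set V) → (S : Set V) ⊆ A → (∀ x ∈ A, ∃ t ∈ S, ¬ G.Adj x t) → S.card = m →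
      G.IsClique (T : Set V) → (T : Set V) ⊆ B → (∀ x ∈ B, ∃ t ∈ T, ¬ G.Adj x t) → T.card = n →
      Cls m G A → Cls n G B → Cls (m + n) G (A ∪ B)
  /-- the non-neighbours of the vertex `v` span a graph without cycles, and the links of `v`, of its non-neighbours
  and of the edges between its non-neighbours are in the class -/
  | tree {n : ℕ} (G : SimpleGraph V) (A : Set V) (v : V) : v ∈ A →
      (G.induce {x | x ∈ A ∧ x ≠ v ∧ ¬ G.Adj v x}).IsAcyclic →
      (∀ c ∈ A, ¬ G.Adj v c → Cls (n + 1) G (A ∩ G.neighborSet c)) →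
      (∀ c ∈ A, ∀ d ∈ A, c ≠ v → ¬ G.Adj v c → d ≠ v → ¬ G.Adj v d → G.Adj c d →
        Cls n G (A ∩ (G.neighborSet c ∩ G.neighborSet d))) → Cls (n + 2) G A
  /-- the edge `st` is not contained in an induced 4-cycle, and the contraction of `st` (`con G s t` with the vertex
  `t` removed) and the links of `s`, `t` and `st` are in the class -/
  | contract {n : ℕ} (G : SimpleGraph V) (A : Set V) (s t : V) : s ∈ A → t ∈ A → G.Adj s t → NoSqA G A s t →
      Cls (n + 2) (con G s t) (A \ {t}) → Cls n G (A ∩ (G.neighborSet s ∩ G.neighborSet t)) →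
      Cls (n + 1) G (A ∩ G.neighborSet s) → Cls (n + 1) G (A ∩ G.neighborSet t) → Cls (n + 2) G A

/-- A local condition on the flag complex on `A`, of odd rank `2 k + 5`: it has few vertices, or it is a join, or it
has a vertex whose non-neighbours span a graph without cycles, or each simplex with `k + 3` vertices has a vertex
whose link has `chiW = 0`, where `chiW` is the sum `∑_T (-1/2)^|T|` over the simplices `T` of the link (the Euler
characteristic of its Coxeter group, not the topological one). -/
def Loc {V : Type} (k : ℕ) (G : SimpleGraph V) (A : Set V) : Prop :=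
  FewA G (2 * k + 5) (k + 2) A ∨
  (∃ X Y : Set V, X.Nonempty ∧ Y.Nonempty ∧ X ∪ Y = A ∧ ∀ x ∈ X, ∀ y ∈ Y, G.Adj x y) ∨
  (∃ v ∈ A, (G.induce {x | x ∈ A ∧ x ≠ v ∧ ¬ G.Adj v x}).IsAcyclic) ∨
  ∀ T : Finset V, G.IsClique (T : Set V) → (T : Set V) ⊆ A → T.card = k + 3 →
    ∃ v ∈ T, ∀ [Fintype ↥(A ∩ G.neighborSet v)], chiW (G.induce (A ∩ G.neighborSet v)) = 0

end Pool.Agent.E8helper58.CM
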