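import Pool.Agent.E8helper58.CM.Red
import Pool.Agent.E8helper58.CM.ClsDef

/-!
# Vanishing above the middle for the class
-/

set_option autoImplicit false
set_option linter.unusedSectionVars false

namespace Pool.Agent.E8helper58.CM

open Pool.Agent.W907.SG Pool.Agent.W907.SM Pool.Agent.TH652.Above Pool.Agent.E8helper58.FV
open Pool.Agent.TH652.Dual (triv Sph lk_iff)
open Pool.Agent.R781.VS (con NoSq Q_split lv_del Q_restrict)
open Pool.Agent.R703.CW (hsph_link card_le_of_hsph)

theorem mem_lk1 {V : Type} [DecidableEq V] {H : SimpleGraph V} {u x : V} : x ∈ lk H (insert u ∅) ↔ H.Adj x u := by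
  simp [lk]

variable {V : Type} [Fintype V] [LinearOrder V] {G : SimpleGraph V}

/-- the condition `FewA` in the induced graph -/
theorem few_of_fewA {A : Set V} [Fintype ↥A] {n : ℕ} (hS : SphA n G A) : ∀ (j : ℕ) (S : Finset ↥A),
    (G.induce A).IsClique (S : Set ↥A) →
    FewA G (n - S.card) j (A ∩ lk G (S.map (Function.Embedding.subtype _))) → Few n (G.induce A) j S := by
  classical
  have hH := hsph_of_sphA hS
  have hlk : ∀ S : Finset ↥A, Subtype.val '' (lk (G.induce A) S) =
      A ∩ lk G (S.map (Function.Embedding.subtype _)) := by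
    intro S
    ext x
    constructor
    · rintro ⟨y, hy, rfl⟩
      refine ⟨y.2, fun u hu => ?_⟩
      obtain ⟨u', hu', rfl⟩ := Finset.mem_map.1 hu
      exact hy u' hu'
    · rintro ⟨hx, h⟩
      exact ⟨⟨x, hx⟩, fun u hu => h u.1 (Finset.mem_map_of_mem _ hu), rfl⟩
  have hcard : ∀ S : Finset ↥A, (lk (G.induce A) S).ncard =
      (A ∩ lk G (S.map (Function.Embedding.subtype _))).ncard := by
    intro S
    rw [← hlk, Set.ncard_image_of_injective _ Subtype.val_injective]
  intro j
  induction j with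
  | zero =>
    intro S hcl h
    have hle := card_le_of_hsph hH S hcl
    have h' : (A ∩ lk G (S.map (Function.Embedding.subtype _))).ncard ≤ n - S.card + 2 ∨
      (A ∩ lk G (S.map (Function.Embedding.subtype _))).ncard ≤ 2 * (n - S.card) := h
    show (lk (G.induce A) S).ncard + S.card ≤ n + 2 ∨ (lk (G.induce A) S).ncard + 2 * S.card ≤ 2 * n
    rw [hcard]
    omega
  | succ j ih =>
    intro S hcl h
    have hle := card_le_of_hsph hH S hcl
    show (lk (G.induce A) S).ncard + S.card ≤ n + 3 * (j + 1) + 2 ∨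
      (lk (G.induce A) S).ncard + 2 * S.card ≤ 2 * n + (j + 1) ∨ _
    rcases h with h | h | h
    · left
      rw [hcard]
      omega
    · right; left
      rw [hcard]
      omega
    · right; right
      intro T hT hTs hTc
      obtain ⟨v, hv, hf⟩ := h (T.map (Function.Embedding.subtype _)) (by
        intro a ha b hb hab
        rw [Finset.mem_coe, Finset.mem_map] at ha hb
        obtain ⟨a', ha', rfl⟩ := ha
        obtain ⟨b', hb', rfl⟩ := hb
        exact hT ha' hb' fun h => hab (congrArg Subtype.val h)) (by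
        rw [← hlk]
        intro x hx
        rw [Finset.mem_coe, Finset.mem_map] at hx
        obtain ⟨y, hy, rfl⟩ := hx
        exact ⟨y, hTs hy, rfl⟩) (by rw [Finset.card_map]; exact hTc)
      obtain ⟨v', hv', rfl⟩ := Finset.mem_map.1 hv
      refine ⟨v', hv', ?_⟩
      have hvS : v' ∈ lk (G.induce A) S := hTs hv'
      have h2 := ins hcl hvS
      refine ih (insert v' S) ?_ ?_
      · have h3 := h2.1
        rw [Finset.coe_insert] at h3 ⊢
        exact h3
      rw [Finset.card_insert_of_notMem (notMem_of_lk hvS), Finset.map_insert]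
      have e : A ∩ lk G (insert ((Function.Embedding.subtype _) v') (S.map (Function.Embedding.subtype _))) =
          A ∩ lk G (S.map (Function.Embedding.subtype _)) ∩ G.neighborSet ((Function.Embedding.subtype _) v') := by
        ext x
        constructor
        · rintro ⟨h3, h4⟩
          have h5 := lk_insert_iff.1 h4
          exact ⟨⟨h3, h5.2⟩, h5.1.symm⟩
        · rintro ⟨⟨h3, h4⟩, h5⟩
          exact ⟨h3, lk_insert_iff.2 ⟨SimpleGraph.Adj.symm h5, h4⟩⟩
      rw [e, Nat.sub_add_eq]
      exact hf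

theorem cls_R (hA : S_CONA) (hB : S_CONB) (hR : S_IRR) {n : ℕ} {A : Set V} (h : Cls n G A) :
    SphA n G A → R G n A := by
  classical
  induction h with
  | @small n G A hn =>
    intro hS
    exact R_of_Q (q_main hA hB (irr_three hR irr_small) n hn _ _ _ rfl (hsph_of_sphA hS))
  | @few n G A h =>
    intro hS
    have h1 := few_of_fewA hS (n / 2) ∅ (by simp) (by
      have e : A ∩ lk G ((∅ : Finset ↥A).map (Function.Embedding.subtype _)) = A := by
        rw [Finset.map_empty, lk_empty, Set.inter_univ]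
      rw [e]
      exact h)
    refine R_of_Q ⟨inferInstance, fun B i hi => few_full (n := n) (hsph_of_sphA hS) h1 B i (by omega)⟩
  | @even m G A B hBc _ ih =>
    intro hS
    exact R_out (m := m + 1) (j := 2 * m + 1) (by intro i hi; omega) hBc fun v hv hvB => ih v hv hvB (sphA_v hS hv)
  | @chi m G A B hBc hχ _ ih =>
    intro hS
    refine R_out (m := m + 1) (j := 2 * m + 1) (by intro i hi; omega) hBc fun v hv hvB => ?_
    have h1 := sphA_v (m := 2 * m + 2) hS hv
    refine R_chi_zero (hsph_of_sphA h1) (hχ v hv hvB) ?_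
    rintro u ⟨hu, hvu⟩
    have h2 := ih v hv hvB u hu hvu (sphA_e (m := 2 * m + 1) hS hv hu hvu)
    refine R_mono ?_ h2
    rintro x ⟨⟨h3, h4⟩, h5⟩
    exact ⟨h3, h4, h5⟩
  | @join m n G A B S T hfull hSc hSA hSm hS1 hTc hTB hTm hT1 _ _ ihA ihB =>
    intro hS
    have hlA : (A ∪ B) ∩ lk G T = A := by
      ext x
      constructor
      · rintro ⟨h1 | h1, h2⟩
        · exact h1
        · obtain ⟨t, ht, hn⟩ := hTm x h1
          exact absurd (h2 t ht) hn
      · intro h1
        exact ⟨Or.inl h1, fun t ht => hfull x h1 t (hTB ht)⟩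
    have hlB : (A ∪ B) ∩ lk G S = B := by
      ext x
      constructor
      · rintro ⟨h1 | h1, h2⟩
        · obtain ⟨t, ht, hn⟩ := hSm x h1
          exact absurd (h2 t ht) hn
        · exact h1
      · intro h1
        exact ⟨Or.inr h1, fun t ht => (hfull t (hSA ht) x h1).symm⟩
    have h1 := sphA_link (m := m) hS hTc (hTB.trans Set.subset_union_right) hT1
    rw [hlA] at h1
    have h2 := sphA_link (m := n) (k := m) (by rw [add_comm]; exact hS) hSc (hSA.trans Set.subset_union_left) hS1
    rw [hlB] at h2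
    exact R_join hfull (ihA h1) (ihB h2)
  | @tree n G A v hv hac _ _ ihc ihe =>
    intro hS
    have hH := hsph_of_sphA hS
    obtain ⟨H, hHd⟩ : ∃ H : SimpleGraph ↥A, H = G.induce A := ⟨_, rfl⟩
    rw [← hHd] at hH
    have hadj : ∀ x y : ↥A, H.Adj x y ↔ G.Adj x.1 y.1 := by
      intro x y
      rw [hHd]
      exact Iff.rfl
    obtain ⟨v', hv'⟩ : ∃ v' : ↥A, v'.1 = v := ⟨⟨v, hv⟩, rfl⟩
    have hvl : ∀ x : ↥A, x ∈ lk H ∅ := fun x => by simp [lk]
    have hac' : (H.induce (NN H ∅ v')).IsAcyclic := by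
      have e := Clo.iso_of H G (NN H ∅ v') {x | x ∈ A ∧ x ≠ v ∧ ¬ G.Adj v x} Subtype.val
        (fun a ha => ⟨a.2, fun e => ha.2.1 (Subtype.ext (e.trans hv'.symm)), fun e => ha.2.2 (by
          rw [hadj, hv']
          exact e)⟩) (fun _ _ _ _ h => Subtype.ext h)
        (fun b hb => ⟨⟨b, hb.1⟩, ⟨hvl _, fun e => hb.2.1 ((congrArg Subtype.val e).trans hv'), fun e => hb.2.2 (by
          rw [hadj, hv'] at e
          exact e)⟩, rfl⟩) (fun a _ b _ => (hadj a b).symm)
      exact (SimpleGraph.Iso.isAcyclic_iff e.some).2 hac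
    have hcl : H.IsClique ((∅ : Finset ↥A) : Set ↥A) := by simp
    obtain ⟨m', hm'⟩ := Tr_of_tree (G := H) _ (NN H ∅ v') rfl ⟨conn_of_Cn (nn_conn (n := n + 2) hH hcl (hvl v')), hac'⟩
    have hR1 : ∀ u : ↥A, ¬ H.Adj v' u → R H (n + 2) (H.neighborSet u) := by
      intro u hu
      have h1 := ihc u.1 u.2 (by rw [hadj, hv'] at hu; exact hu) (sphA_v (m := n + 1) hS u.2)
      rw [hHd]
      refine R_level (Nat.le_succ _) (R_ind (R_mono ?_ h1))
      rintro _ ⟨x, hx, rfl⟩
      exact ⟨x.2, hx⟩
    have key := FV.tree n v' (H.neighborSet v') m' H (NN H ∅ v') hm'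
      (fun u hu => hu)
      (fun c hc => ⟨hc.2.1, hc.2.2, fun h => hc.2.2 h⟩)
      (fun u hu => by
        rw [nn_link]
        exact nn_conn (n := n + 2) hH (by simp) (mem_lk1.2 hu))
      (fun u hu u' hu' huu => by
        obtain ⟨c, hc, hcv, hn, hT⟩ := star (n := n + 2) hH hcl (hvl v') (T := {u, u'}) (by
          rw [Finset.coe_insert, Finset.coe_singleton]
          exact (SimpleGraph.isClique_pair).2 fun _ => huu) (by
          rw [Finset.coe_insert, Finset.coe_singleton]
          rintro x (h | h)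
          · rw [h]
            exact mem_lk1.2 (SimpleGraph.Adj.symm hu)
          · rw [h]
            exact mem_lk1.2 (SimpleGraph.Adj.symm hu'))
        exact ⟨c, ⟨hc, hcv, hn⟩, hT u (by simp), hT u' (by simp)⟩)
      (hR1 v' H.irrefl)
      (fun c hc => R_mono (fun x hx => hx.2) (hR1 c hc.2.2))
      (fun c hc c' hc' hcc => by
        have h1 := ihe c.1 c.2 c'.1 c'.2 (fun e => hc.2.1 (Subtype.ext (e.trans hv'.symm)))
          (fun e => hc.2.2 (by rw [hadj, hv']; exact e)) (fun e => hc'.2.1 (Subtype.ext (e.trans hv'.symm)))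
          (fun e => hc'.2.2 (by rw [hadj, hv']; exact e)) ((hadj c c').1 hcc)
          (sphA_e hS c.2 c'.2 ((hadj c c').1 hcc))
        rw [hHd]
        refine R_ind (R_mono ?_ h1)
        rintro _ ⟨x, hx, rfl⟩
        refine ⟨x.2, ?_, ?_⟩
        · exact hx.2.1
        · exact hx.2.2)
    have h1 : R H (n + 2) Set.univ := by
      refine R_mono ?_ key
      intro x _
      by_cases hxv : x = v'
      · exact Or.inl hxv
      · by_cases h : H.Adj v' x
        · exact Or.inr (Or.inl h)
        · exact Or.inr (Or.inr ⟨hvl x, hxv, h⟩)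
    rw [hHd] at h1
    exact R_of_Q ⟨inferInstance, fun B i hi => h1 B (Set.subset_univ _) i hi⟩
  | @contract n G A s t hs ht hst hsq _ _ _ _ ih1 ih2 ih3 ih4 =>
    intro hS
    have h1 : SphA (n + 2) (con G s t) (A \ {t}) := by
      intro S hSc hSA i
      by_cases hsS : s ∈ S
      · exact hB V G A (n + 2) s t hS hs ht hst hsq S hSc hSA hsS i
      · exact hA V G A (n + 2) s t hS hs ht hst hsq S hSc hSA hsS i
    exact R_split hs ht hst hsq (ih1 h1) (ih2 (sphA_e hS hs ht hst))
      (R_level (Nat.le_succ _) (ih3 (sphA_v (m := n + 1) hS hs)))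
      (R_level (Nat.le_succ _) (ih4 (sphA_v (m := n + 1) hS ht)))

end Pool.Agent.E8helper58.CM
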