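import Pool.Agent.E8helper58.CM.Cls

/-!
# Local criteria for the class
-/

set_option autoImplicit false
set_option linter.unusedSectionVars false

namespace Pool.Agent.E8helper58.CM

open Pool.Agent.W907.SG Pool.Agent.W907.SM Pool.Agent.TH652.Above Pool.Agent.E8helper58.FV
open Pool.Agent.TH652.Dual (triv Sph lk_iff no_big)
open Pool.Agent.W497.FS (NP Prm comps lkF mem_lkF SConn mem_cl)

variable {V : Type} [Fintype V] [LinearOrder V] {G : SimpleGraph V} {n : ℕ}

theorem lk_ins {S : Finset V} {v : V} : lk G (insert v S) = lk G S ∩ G.neighborSet v := by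
  ext x
  rw [lk_insert_iff]
  constructor
  · rintro ⟨h1, h2⟩
    exact ⟨h2, h1.symm⟩
  · rintro ⟨h1, h2⟩
    exact ⟨SimpleGraph.Adj.symm h2, h1⟩

/-- the local conditions for the links of odd rank imply that the links are in the class -/
theorem cls_of_loc (hS : HSph n G)
    (h : ∀ (S : Finset V) (k : ℕ), G.IsClique (S : Set V) → S.card + (2 * k + 5) = n → Loc k G (lk G S)) :
    ∀ (d : ℕ) (S : Finset V), G.IsClique (S : Set V) → d + S.card = n → Cls d G (lk G S) := by
  classical
  intro d
  induction d using Nat.strong_induction_on with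
  | _ d ih =>
  intro S hcl hd
  have hI : ∀ u ∈ lk G S, ∀ e, e + 1 = d → Cls e G (lk G S ∩ G.neighborSet u) := by
    intro u hu e he
    rw [← lk_ins]
    exact ih e (by omega) (insert u S) (ins hcl hu).1 (by rw [(ins hcl hu).2]; omega)
  have hI2 : ∀ u ∈ lk G S, ∀ w ∈ lk G S, G.Adj u w → ∀ e, e + 2 = d →
      Cls e G (lk G S ∩ (G.neighborSet u ∩ G.neighborSet w)) := by
    intro u hu w hw huw e he
    have h1 : w ∈ lk G (insert u S) := lk_insert_iff.2 ⟨huw.symm, hw⟩
    have h2 := ins (ins hcl hu).1 h1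
    have h3 := ih e (by omega) _ h2.1 (by rw [h2.2, (ins hcl hu).2]; omega)
    rw [lk_ins, lk_ins, Set.inter_assoc] at h3
    exact h3
  by_cases h4 : d ≤ 4
  · exact Cls.small G _ h4
  rcases Nat.even_or_odd' d with ⟨m, hm | hm⟩
  · obtain ⟨m', rfl⟩ : ∃ m', m = m' + 1 := ⟨m - 1, by omega⟩
    have e : d = 2 * m' + 2 := by omega
    rw [e]
    refine Cls.even G _ ∅ ?_ fun v hv _ => hI v hv _ (by omega)
    intro T _ _ hT
    have h1 : T = ∅ := by
      rw [← Finset.coe_eq_empty]
      exact Set.subset_empty_iff.1 hT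
    rw [h1]
    simp
  · obtain ⟨k, rfl⟩ : ∃ k, m = k + 2 := ⟨m - 2, by omega⟩
    have e : d = 2 * k + 5 := by omega
    rcases h S k hcl (by omega) with h | ⟨A, B, hA, hB, hAB, hfull⟩ | ⟨v, hv, hac⟩ | h
    · rw [e]
      refine Cls.few G _ ?_
      have e2 : (2 * k + 5) / 2 = k + 2 := by omega
      rw [e2]
      exact h
    · obtain ⟨TA, hTAc, hTAs, hTAm⟩ := max_clique (G := G) A
      obtain ⟨TB, hTBc, hTBs, hTBm⟩ := max_clique (G := G) B
      have hneT : ∀ (X : Set V) (T : Finset V), X.Nonempty → (∀ x ∈ X, ∃ t ∈ T, ¬ G.Adj x t) → 1 ≤ T.card := by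
        rintro X T ⟨x, hx⟩ hT
        obtain ⟨t, ht, -⟩ := hT x hx
        exact Finset.card_pos.2 ⟨t, ht⟩
      have h1A := hneT A TA hA hTAm
      have h1B := hneT B TB hB hTBm
      obtain ⟨h1, h2, h3, h4, h5, h6, h7⟩ := join_rank (n := n) hS hcl hAB hfull hTAc hTAs hTAm hTBc hTBs hTBm
      have hCA := ih TA.card (by omega) (S ∪ TB) h3 (by omega)
      have hCB := ih TB.card (by omega) (S ∪ TA) h4 (by omega)
      rw [h1] at hCA
      rw [h2] at hCB
      have h8 := Cls.join G A B TA TB hfull hTAc hTAs hTAm rfl hTBc hTBs hTBm rfl hCA hCB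
      rw [hAB] at h8
      have e2 : TA.card + TB.card = d := by omega
      rw [e2] at h8
      exact h8
    · have e2 : d = (2 * k + 3) + 2 := by omega
      rw [e2]
      exact Cls.tree G _ v hv hac (fun c hc _ => hI c hc _ (by omega))
        (fun c hc c' hc' _ _ _ _ hcc => hI2 c hc c' hc' hcc _ (by omega))
    · have e2 : d = 2 * (k + 1) + 3 := by omega
      rw [e2]
      refine Cls.chi G _ {v | ¬ ∀ [Fintype ↥(lk G S ∩ G.neighborSet v)],
        chiW (G.induce (lk G S ∩ G.neighborSet v)) = 0} ?_ ?_ ?_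
      · intro T hT hTS hTB
        by_contra hlt
        push Not at hlt
        obtain ⟨T', hT', hc'⟩ := Finset.exists_subset_card_eq (n := k + 3) (by omega : k + 3 ≤ T.card)
        obtain ⟨v, hv, h1⟩ := h T' (hT.subset (Finset.coe_subset.2 hT')) ((Finset.coe_subset.2 hT').trans hTS) hc'
        exact hTB (hT' hv) h1
      · intro v _ hvB inst
        by_contra hne
        exact hvB fun h => hne h
      · intro v hv _ u hu hvu
        exact hI2 v hv u hu hvu _ (by omega)

/-- the minimal number of vertices -/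
theorem loc_of_card (hS : HSph n G) (hN : Fintype.card V + (comps G Finset.univ).card ≤ 3 * n)
    (S : Finset V) (k : ℕ) (hcl : G.IsClique (S : Set V)) (hk : S.card + (2 * k + 5) = n) : Loc k G (lk G S) := by
  classical
  obtain ⟨hNP, hdef⟩ := defect_link (n := n) hS hcl (d := (2 * k + 3) + 2) (by omega)
  by_cases hp : Prm G (lkF G Finset.univ S)
  · right; right; left
    rw [Pool.Agent.W497.FS.comps_prm hp, Finset.card_singleton] at hdef
    obtain ⟨v, hv, -, hv2⟩ := Pool.Agent.W497.FS.exists_small (k := 0) hNP hp (by omega)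
    refine ⟨v, mem_W.1 hv, SimpleGraph.IsAcyclic.of_card_le_two ?_⟩
    have e : NN G S v = ((Pool.Agent.W497.FS.nn G (lkF G Finset.univ S) v : Finset V) : Set V) := by
      ext x
      rw [Finset.mem_coe, Pool.Agent.W497.FS.mem_nn, mem_W]
      exact Iff.rfl
    show ENat.card ↥(NN G S v) ≤ 2
    rw [e]
    simp only [Finset.coe_sort_coe, ENat.card_eq_coe_fintype_card, Fintype.card_coe]
    exact_mod_cast hv2
  · right; left
    obtain ⟨A, B, hA, hB, hAB, hW⟩ := Pool.Agent.W497.FS.split_of_not_prm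
      hNP.nonempty hp
    refine ⟨A, B, hA, hB, ?_, fun a ha b hb => hAB a ha b hb⟩
    rw [← coe_W, ← hW, Finset.coe_union]

/-- the class from the local conditions -/
theorem cls_univ (hS : HSph n G)
    (h : ∀ (S : Finset V) (k : ℕ), G.IsClique (S : Set V) → S.card + (2 * k + 5) = n → Loc k G (lk G S)) :
    Cls n G Set.univ := by
  have h1 := cls_of_loc hS h n ∅ (by simp) (by simp)
  rwa [lk_empty] at h1

end Pool.Agent.E8helper58.CM
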