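import Pool.Agent.E8helper58.CM.Basic
import Pool.Agent.R703.CW.Link

/-!
# Homology spheres on subsets
-/

set_option autoImplicit false

namespace Pool.Agent.E8helper58.CM

open Pool.Agent.W907.SG Pool.Agent.W907.SM Pool.Agent.TH652.Above
open Pool.Agent.TH652.Dual (triv Sph)
open Pool.Agent.R781.VS (con NoSq)

variable {V : Type} [Fintype V] [LinearOrder V] {G : SimpleGraph V} {n : ℕ}

/-- the induced graph of a homology sphere on a subset -/
theorem hsph_of_sphA {A : Set V} [Fintype ↥A] (h : SphA n G A) : HSph n (G.induce A) := by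
  classical
  intro S' hS' i
  obtain ⟨S, hSd⟩ : ∃ S : Finset V, S = S'.map (Function.Embedding.subtype _) := ⟨_, rfl⟩
  have hcard : S.card = S'.card := by
    rw [hSd, Finset.card_map]
  have hSA : (S : Set V) ⊆ A := by
    intro x hx
    rw [Finset.mem_coe, hSd, Finset.mem_map] at hx
    obtain ⟨a, -, rfl⟩ := hx
    exact a.2
  have hSc : G.IsClique (S : Set V) := by
    intro a ha b hb hab
    rw [Finset.mem_coe, hSd, Finset.mem_map] at ha hb
    obtain ⟨a', ha', rfl⟩ := ha
    obtain ⟨b', hb', rfl⟩ := hb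
    exact hS' ha' hb' fun h => hab (congrArg Subtype.val h)
  have hfin : Fintype ↥(lk (G.induce A) S') := Fintype.ofFinite _
  have e1 := tr ↥(lk (G.induce A) S') ↥A ℝ ℝ (G.induce A)
    ((G.induce A).induce (lk (G.induce A) S')) (fun _ => - LinearMap.id) Subtype.val
    (fun _ _ h => h) (fun _ _ => Iff.rfl) i
  have e2 := tr ↥(lk (G.induce A) S') V ℝ ℝ G
    ((G.induce A).induce (lk (G.induce A) S')) (fun _ => - LinearMap.id)
    (fun x => x.1.1) (fun _ _ h => h) (fun _ _ => Iff.rfl) i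
  rw [Subtype.range_coe] at e1
  have hr : Set.range (fun x : ↥(lk (G.induce A) S') => (x.1.1 : V)) = A ∩ lk G S := by
    ext v
    constructor
    · rintro ⟨x, rfl⟩
      refine ⟨x.1.2, fun u hu => ?_⟩
      rw [hSd, Finset.mem_map] at hu
      obtain ⟨u', hu', rfl⟩ := hu
      exact x.2 u' hu'
    · rintro ⟨hvA, hv⟩
      refine ⟨⟨⟨v, hvA⟩, fun u hu => hv u.1 ?_⟩, rfl⟩
      rw [hSd, Finset.mem_map]
      exact ⟨u, hu, rfl⟩
  rw [hr] at e2
  have e3 := h S hSc hSA i
  have e4 : (triv V : V → ℝ →ₗ[ℝ] ℝ) = fun _ => - LinearMap.id := rfl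
  rw [e4, e2] at e3
  rw [e1, e3, hcard]

theorem sphA_univ (h : HSph n G) : SphA n G Set.univ := by
  intro S hS _ i
  rw [Set.univ_inter]
  exact h S hS i

/-- contraction of an edge -/
theorem hsph_con (hA : S_CONA) (hB : S_CONB) {s t : V} [Fintype ↥({t}ᶜ : Set V)] (h : HSph n G)
    (hst : G.Adj s t) (hsq : NoSq G s t) : HSph n ((con G s t).induce {t}ᶜ) := by
  classical
  refine hsph_of_sphA ?_
  have e : ({t}ᶜ : Set V) = Set.univ \ {t} := by
    ext x
    simp
  rw [e]
  intro S hS hSA i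
  have hsq' : NoSqA G Set.univ s t := fun x _ y _ => hsq x y
  by_cases hs : s ∈ S
  · exact hB V G Set.univ n s t (sphA_univ h) (Set.mem_univ _) (Set.mem_univ _) hst hsq' S hS hSA hs i
  · exact hA V G Set.univ n s t (sphA_univ h) (Set.mem_univ _) (Set.mem_univ _) hst hsq' S hS hSA hs i

end Pool.Agent.E8helper58.CM
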