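import Pool.Agent.TH652.Dual6
import Pool.Agent.R781.VS.Contr

/-!
# Contraction of an edge in a homology sphere: statements of the parts

All Betti numbers are reduced real Betti numbers: `beta G (triv V) A ∅ i` is the reduced Betti number in the degree
`i - 1` of the flag complex of the graph induced on `A` (`i` counts the vertices of the simplices).
-/

set_option autoImplicit false

namespace Pool.Agent.E8helper58.CM

open Pool.Agent.W907.SG Pool.Agent.W907.SM
open Pool.Agent.TH652.Dual (triv Sph)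
open Pool.Agent.R781.VS (con)

/-- the flag complex of the graph induced on `A` is a real homology sphere (and homology manifold) of rank `n`, that
is of dimension `n - 1` -/
def SphA {V : Type} [Fintype V] [LinearOrder V] (n : ℕ) (G : SimpleGraph V) (A : Set V) : Prop :=
  ∀ S : Finset V, G.IsClique (S : Set V) → (S : Set V) ⊆ A → ∀ i : ℕ,
    beta G (triv V) (A ∩ lk G S) ∅ i = if i + S.card = n then 1 else 0

/-- the edge `st` is not contained in an induced 4-cycle of the full subgraph on `A` -/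
def NoSqA {V : Type} (G : SimpleGraph V) (A : Set V) (s t : V) : Prop :=
  ∀ x ∈ A, ∀ y ∈ A, G.Adj s x → ¬ G.Adj t x → x ≠ t → G.Adj t y → ¬ G.Adj s y → y ≠ s → ¬ G.Adj x y

/-- CONEQ: contracting an edge which is not in an induced 4-cycle does not change the real Betti numbers -/
def S_CONEQ : Prop := ∀ (V : Type) [Fintype V] [LinearOrder V] (G : SimpleGraph V) (A : Set V) (s t : V),
  s ∈ A → t ∈ A → G.Adj s t → NoSqA G A s t →
  ∀ i, beta (con G s t) (triv V) (A \ {t}) ∅ i = beta G (triv V) A ∅ i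

/-- DEL: deleting a vertex with acyclic link does not change the Betti numbers -/
def S_DEL : Prop := ∀ (V : Type) [Fintype V] [LinearOrder V] (G : SimpleGraph V) (A : Set V) (v : V), v ∈ A →
  (∀ i, beta G (triv V) (A ∩ G.neighborSet v) ∅ i = 0) →
  ∀ i, beta G (triv V) (A \ {v}) ∅ i = beta G (triv V) A ∅ i

/-- CONE0: cones are acyclic -/
def S_CONE0 : Prop := ∀ (V : Type) [Fintype V] [LinearOrder V] (G : SimpleGraph V) (A : Set V) (v : V), v ∈ A →
  (∀ x ∈ A, x ≠ v → G.Adj v x) → ∀ i, beta G (triv V) A ∅ i = 0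

/-- UP: if deleting the vertex `v` gives an acyclic complex, the Betti numbers are those of the link of `v` -/
def S_UP : Prop := ∀ (V : Type) [Fintype V] [LinearOrder V] (G : SimpleGraph V) (A : Set V) (v : V), v ∈ A →
  (∀ i, beta G (triv V) (A \ {v}) ∅ i = 0) →
  ∀ i, beta G (triv V) (A ∩ G.neighborSet v) ∅ i = beta G (triv V) A ∅ (i + 1)

/-- PUNCT: a homology sphere minus a vertex is acyclic -/
def S_PUNCT : Prop := ∀ (V : Type) [Fintype V] [LinearOrder V] (G : SimpleGraph V) (A : Set V) (m : ℕ),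
  SphA m G A → ∀ v ∈ A, ∀ i, beta G (triv V) (A \ {v}) ∅ i = 0

/-- MERGE: the link of the new vertex is a homology sphere (its links are treated in CONB) -/
def S_MERGE : Prop := ∀ (V : Type) [Fintype V] [LinearOrder V] (G : SimpleGraph V) (L : Set V) (m : ℕ) (s t : V),
  SphA m G L → s ∈ L → t ∈ L → G.Adj s t → NoSqA G L s t →
  ∀ i, beta G (triv V) ((L ∩ (G.neighborSet s ∪ G.neighborSet t)) \ {s, t}) ∅ i = if i + 1 = m then 1 else 0

/-- CONA: the links in the contraction of the simplices which do not contain the new vertex `s` -/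
def S_CONA : Prop := ∀ (V : Type) [Fintype V] [LinearOrder V] (G : SimpleGraph V) (A : Set V) (n : ℕ) (s t : V),
  SphA n G A → s ∈ A → t ∈ A → G.Adj s t → NoSqA G A s t →
  ∀ S : Finset V, (con G s t).IsClique (S : Set V) → (S : Set V) ⊆ A \ {t} → s ∉ S → ∀ i : ℕ,
    beta (con G s t) (triv V) ((A \ {t}) ∩ lk (con G s t) S) ∅ i = if i + S.card = n then 1 else 0

/-- CONB: the links in the contraction of the simplices which contain the new vertex `s` -/
def S_CONB : Prop := ∀ (V : Type) [Fintype V] [LinearOrder V] (G : SimpleGraph V) (A : Set V) (n : ℕ) (s t : V),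
  SphA n G A → s ∈ A → t ∈ A → G.Adj s t → NoSqA G A s t →
  ∀ S : Finset V, (con G s t).IsClique (S : Set V) → (S : Set V) ⊆ A \ {t} → s ∈ S → ∀ i : ℕ,
    beta (con G s t) (triv V) ((A \ {t}) ∩ lk (con G s t) S) ∅ i = if i + S.card = n then 1 else 0

/-- connected (nonempty) sets of vertices -/
def Conn {V : Type} (G : SimpleGraph V) (X : Set V) : Prop :=
  X.Nonempty ∧ ∀ B : Set V, B ⊆ X → B.Nonempty → B ≠ X → ∃ a ∈ B, ∃ b ∈ X, b ∉ B ∧ G.Adj a b

/-- `a b c d` is an induced 4-cycle in `A` -/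
def Sq {V : Type} (G : SimpleGraph V) (A : Set V) (a b c d : V) : Prop :=
  a ∈ A ∧ b ∈ A ∧ c ∈ A ∧ d ∈ A ∧ G.Adj a b ∧ G.Adj b c ∧ G.Adj c d ∧ G.Adj d a ∧
    a ≠ c ∧ b ≠ d ∧ ¬ G.Adj a c ∧ ¬ G.Adj b d

/-- `X` and `Y` are the two sides of the 4-cycle `a b c d` in `A` -/
def Sides {V : Type} (G : SimpleGraph V) (A : Set V) (a b c d : V) (X Y : Set V) : Prop :=
  X ∪ Y = A \ {a, b, c, d} ∧ Disjoint X Y ∧ Conn G X ∧ Conn G Y ∧ (∀ x ∈ X, ∀ y ∈ Y, ¬ G.Adj x y) ∧
    ∀ u ∈ ({a, b, c, d} : Set V), (∃ x ∈ X, G.Adj u x) ∧ (∃ y ∈ Y, G.Adj u y)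

/-- JORDAN: an induced 4-cycle separates a flag 2-sphere in two connected sides -/
def S_JORDAN : Prop := ∀ (V : Type) [Fintype V] [LinearOrder V] (G : SimpleGraph V) (A : Set V), SphA 3 G A →
  ∀ a b c d : V, Sq G A a b c d → ∃ X Y : Set V, Sides G A a b c d X Y

/-- IRR: a flag 2-sphere in which each edge is contained in an induced 4-cycle is a join (the octahedron) -/
def S_IRR : Prop := ∀ (V : Type) [Fintype V] [LinearOrder V] (G : SimpleGraph V) (A : Set V), SphA 3 G A →
  (∃ s ∈ A, ∃ t ∈ A, G.Adj s t ∧ NoSqA G A s t) ∨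
  ∃ X Y : Set V, X.Nonempty ∧ Y.Nonempty ∧ X ∪ Y = A ∧ ∀ x ∈ X, ∀ y ∈ Y, G.Adj x y

end Pool.Agent.E8helper58.CM
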